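import Pool.Agent.Helper17.RZ.St2

/-!
# Project RZ, module B1: quasi-isomorphic DG algebras of endomorphisms
-/

set_option autoImplicit false

namespace Pool.Agent.Helper82.RZ

open Pool.Agent.Helper17.RZ

universe u v

noncomputable section

variable {k : Type u} [Field k] (C : DGCat.{u, v} k) (X Y : C.Obj) (ε : C.Hom X Y 0)

/-- the upper triangular DG algebra of `ε : X → Y` -/
def tri (hε : C.d (zero_add 1) ε = 0) : DGA.{u} k where
  R n := C.Hom X X n × C.Hom Y Y n × C.Hom X Y (n - 1)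
  one := (C.one X, C.one Y, 0)
  mul {n m l} h := LinearMap.mk₂ k
    (fun (p : C.Hom X X n × C.Hom Y Y n × C.Hom X Y (n - 1))
        (q : C.Hom X X m × C.Hom Y Y m × C.Hom X Y (m - 1)) =>
      ((C.comp h p.1 q.1, C.comp h p.2.1 q.2.1,
        C.comp (show n - 1 + m = l - 1 by omega) p.2.2 q.1 +
          n.negOnePow • C.comp (show n + (m - 1) = l - 1 by omega) p.2.1 q.2.2) :
        C.Hom X X l × C.Hom Y Y l × C.Hom X Y (l - 1)))
    (fun a b c => by
      rcases Int.units_eq_one_or n.negOnePow with hs | hs <;> simp [hs] <;> abel)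
    (fun r a c => by
      rcases Int.units_eq_one_or n.negOnePow with hs | hs <;> simp [hs])
    (fun a b c => by
      rcases Int.units_eq_one_or n.negOnePow with hs | hs <;> simp [hs] <;> abel)
    (fun r a c => by
      rcases Int.units_eq_one_or n.negOnePow with hs | hs <;> simp [hs])
  d {n m} h :=
    { toFun := fun p => (C.d h p.1, C.d h p.2.1,
        - C.d (show n - 1 + 1 = m - 1 by omega) p.2.2 +
          C.comp (show n + 0 = m - 1 by omega) p.2.1 ε -
          C.comp (show 0 + n = m - 1 by omega) ε p.1)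
      map_add' := fun a b => by
        simp only [Prod.fst_add, Prod.snd_add, map_add, LinearMap.add_apply, Prod.mk_add_mk,
          Prod.mk.injEq, true_and]
        abel
      map_smul' := fun r a => by
        simp only [Prod.smul_fst, Prod.smul_snd, map_smul, LinearMap.smul_apply, Prod.smul_mk,
          RingHom.id_apply, smul_sub, smul_add, smul_neg] }
  one_mul h f := by
    obtain ⟨a, b, f⟩ := f
    simp [C.one_comp]
  mul_one h f := by
    obtain ⟨a, b, f⟩ := f
    simp [C.comp_one]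
  assoc {a b c ab bc l} h₁ h₂ h₃ h₄ f g h := by
    obtain ⟨f1, f2, f3⟩ := f
    obtain ⟨g1, g2, g3⟩ := g
    obtain ⟨h1', h2', h3'⟩ := h
    have e1 : (a + b).negOnePow = a.negOnePow * b.negOnePow := Int.negOnePow_add a b
    have e2 := C.assoc h₁ h₂ h₃ h₄ f1 g1 h1'
    have e3 := C.assoc h₁ h₂ h₃ h₄ f2 g2 h2'
    have e4 := C.assoc (show a - 1 + b = ab - 1 by omega) (show ab - 1 + c = l - 1 by omega) h₃
      (show a - 1 + bc = l - 1 by omega) f3 g1 h1'
    have e5 := C.assoc (show a + (b - 1) = ab - 1 by omega) (show ab - 1 + c = l - 1 by omega)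
      (show b - 1 + c = bc - 1 by omega) (show a + (bc - 1) = l - 1 by omega) f2 g3 h1'
    have e6 := C.assoc h₁ (show ab + (c - 1) = l - 1 by omega)
      (show b + (c - 1) = bc - 1 by omega) (show a + (bc - 1) = l - 1 by omega) f2 g2 h3'
    subst h₁
    simp only [LinearMap.mk₂_apply, Prod.mk.injEq]
    refine ⟨e2, e3, ?_⟩
    rw [e1]
    rcases Int.units_eq_one_or a.negOnePow with hs | hs <;>
      rcases Int.units_eq_one_or b.negOnePow with ht | ht <;>
      simp [hs, ht, e4, e5, e6] <;> abel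
  d_d {n m l} h₁ h₂ f := by
    obtain ⟨f1, f2, f3⟩ := f
    simp only [LinearMap.coe_mk, AddHom.coe_mk]
    have e1 := C.d_d h₁ h₂ f1
    have e2 := C.d_d h₁ h₂ f2
    have e3 := C.d_d (show n - 1 + 1 = m - 1 by omega) (show m - 1 + 1 = l - 1 by omega) f3
    have e4 := C.d_comp (show n + 0 = m - 1 by omega) (show m - 1 + 1 = l - 1 by omega)
      (show n + 1 = m by omega) (zero_add 1) (show m + 0 = l - 1 by omega)
      (show n + 1 = l - 1 by omega) f2 ε
    have e5 := C.d_comp (show 0 + n = m - 1 by omega) (show m - 1 + 1 = l - 1 by omega)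
      (zero_add 1) (show n + 1 = m by omega) (show 1 + n = l - 1 by omega)
      (show 0 + m = l - 1 by omega) ε f1
    rw [hε] at e4 e5
    simp only [map_zero, smul_zero, add_zero, LinearMap.zero_apply, zero_add, Int.negOnePow_zero,
      one_smul] at e4 e5
    rw [map_sub, map_add, map_neg, e3, e4, e5, e1, e2]
    simp
  d_mul {n m l n' m' l'} h hl hn hm h₁ h₂ f g := by
    obtain ⟨f1, f2, f3⟩ := f
    obtain ⟨g1, g2, g3⟩ := g
    simp only [LinearMap.coe_mk, AddHom.coe_mk, LinearMap.mk₂_apply]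
    have e1 := C.d_comp h hl hn hm h₁ h₂ f1 g1
    have e2 := C.d_comp h hl hn hm h₁ h₂ f2 g2
    have e3 := C.d_comp (show n - 1 + m = l - 1 by omega) (show l - 1 + 1 = l' - 1 by omega)
      (show n - 1 + 1 = n' - 1 by omega) hm (show n' - 1 + m = l' - 1 by omega)
      (show n - 1 + m' = l' - 1 by omega) f3 g1
    have e4 := C.d_comp (show n + (m - 1) = l - 1 by omega) (show l - 1 + 1 = l' - 1 by omega)
      hn (show m - 1 + 1 = m' - 1 by omega) (show n' + (m - 1) = l' - 1 by omega)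
      (show n + (m' - 1) = l' - 1 by omega) f2 g3
    have e5 := C.assoc h (show l + 0 = l' - 1 by omega) (show m + 0 = m' - 1 by omega)
      (show n + (m' - 1) = l' - 1 by omega) f2 g2 ε
    have e6 := C.assoc (show 0 + n = n' - 1 by omega) (show n' - 1 + m = l' - 1 by omega) h
      (show 0 + l = l' - 1 by omega) ε f1 g1
    have e7 := C.assoc (show n + 0 = n' - 1 by omega) (show n' - 1 + m = l' - 1 by omega)
      (show 0 + m = m' - 1 by omega) (show n + (m' - 1) = l' - 1 by omega) f2 ε g1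
    have s1 : (n - 1).negOnePow = - n.negOnePow := by
      rw [Int.negOnePow_sub, Int.negOnePow_one]; simp
    have s2 : n'.negOnePow = - n.negOnePow := by
      rw [← hn, Int.negOnePow_succ]
    rw [s1] at e3
    rw [s2]
    simp only [Prod.smul_mk, Prod.mk_add_mk, Prod.mk.injEq]
    refine ⟨e1, e2, ?_⟩
    rcases Int.units_eq_one_or n.negOnePow with hs | hs <;>
      simp [hs] at e3 e4 ⊢ <;>
      simp [e3, e4, e5, e6, e7] <;> abel

variable (hε : C.d (zero_add 1) ε = 0)

lemma tri_d {n m : ℤ} (h : n + 1 = m) (a : C.Hom X X n) (b : C.Hom Y Y n) (f : C.Hom X Y (n - 1)) :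
    (tri C X Y ε hε).d h (a, b, f) = (C.d h a, C.d h b,
        - C.d (show n - 1 + 1 = m - 1 by omega) f +
          C.comp (show n + 0 = m - 1 by omega) b ε -
          C.comp (show 0 + n = m - 1 by omega) ε a) := rfl

/-- first projection -/
def p1 : DGA.Mor (tri C X Y ε hε) (C.End X) where
  f n := LinearMap.fst k (C.Hom X X n) (C.Hom Y Y n × C.Hom X Y (n - 1))
  f_one := rfl
  f_mul _ _ _ := rfl
  f_d _ _ := rfl

/-- second projection -/
def p2 : DGA.Mor (tri C X Y ε hε) (C.End Y) where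
  f n := (LinearMap.fst k (C.Hom Y Y n) (C.Hom X Y (n - 1))) ∘ₗ
    (LinearMap.snd k (C.Hom X X n) (C.Hom Y Y n × C.Hom X Y (n - 1)))
  f_one := rfl
  f_mul _ _ _ := rfl
  f_d _ _ := rfl

include hε in
lemma d_comp_eps {n m p q : ℤ} (h : n + 1 = m) (hp : n + 0 = p) (hq : m + 0 = q) (hpq : p + 1 = q)
    (b : C.Hom Y Y n) : C.d hpq (C.comp hp b ε) = C.comp hq (C.d h b) ε := by
  have e := C.d_comp hp hpq h (zero_add 1) hq (show n + 1 = q by omega) b ε
  rw [hε] at e
  simpa using e

include hε in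
lemma d_eps_comp {n m p q : ℤ} (h : n + 1 = m) (hp : 0 + n = p) (hq : 0 + m = q) (hpq : p + 1 = q)
    (a : C.Hom X X n) : C.d hpq (C.comp hp ε a) = C.comp hq ε (C.d h a) := by
  have e := C.d_comp hp hpq (zero_add 1) h (show 1 + n = q by omega) hq ε a
  rw [hε] at e
  simpa using e

/-- from a closed element of the triangular algebra -/
lemma closed_third {n m : ℤ} (h : n + 1 = m) {a : C.Hom X X n} {b : C.Hom Y Y n}
    {f : C.Hom X Y (n - 1)} (hc : (tri C X Y ε hε).d h (a, b, f) = 0) :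
    C.d h a = 0 ∧ C.d h b = 0 ∧ ∀ p : ℤ, ∀ hp : p = n,
      C.comp (show 0 + n = p by omega) ε a = C.comp (show n + 0 = p by omega) b ε -
        C.d (show n - 1 + 1 = p by omega) f := by
  rw [tri_d] at hc
  have h1 := congrArg Prod.fst hc
  have h2 := congrArg (fun x => x.2.1) hc
  have h3 := congrArg (fun x => x.2.2) hc
  refine ⟨h1, h2, ?_⟩
  simp only at h3
  intro p hp
  obtain rfl : p = m - 1 := by omega
  change -(C.d _) f + (C.comp _) b ε - (C.comp _ ε) a = 0 at h3
  rw [sub_eq_zero] at h3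
  rw [← h3]
  abel

lemma p2_qiso (hq : QPost C X Y ε) : (p2 C X Y ε hε).QIso := by
  constructor
  · intro l n m h₁ h₂ x b1 hx hb
    obtain ⟨a, b, f⟩ := x
    obtain rfl : l = n - 1 := by omega
    obtain ⟨ha, hb', h3⟩ := closed_third C X Y ε hε h₂ hx
    change C.Hom Y Y (n - 1) at b1
    change b = C.d h₁ b1 at hb
    have h4 := h3 n rfl
    have h5 : C.comp (zero_add n) ε a =
        C.d h₁ (C.comp (add_zero (n - 1)) b1 ε - f) := by
      rw [map_sub, d_comp_eps C X Y ε hε h₁ (add_zero (n - 1)) (add_zero n) h₁ b1, ← hb]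
      exact h4
    obtain ⟨a1, ha1⟩ := hq.1 (n - 1) n m h₁ h₂ a _ ha h5
    have h6 : C.d h₁ (f - C.comp (add_zero (n - 1)) b1 ε + C.comp (zero_add (n - 1)) ε a1) = 0 := by
      rw [map_add, map_sub, d_comp_eps C X Y ε hε h₁ (add_zero (n - 1)) (add_zero n) h₁ b1,
        d_eps_comp C X Y ε hε h₁ (zero_add (n - 1)) (zero_add n) h₁ a1, ← ha1, ← hb, h4]
      abel
    obtain ⟨a2, f1, ha2, hf1⟩ := hq.2 (n - 1 - 1) (n - 1) n (by omega) h₁ _ h6
    refine ⟨((a1 - a2, b1, -f1) : C.Hom X X (n - 1) × C.Hom Y Y (n - 1) × C.Hom X Y (n - 1 - 1)),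
      Prod.ext ?_ (Prod.ext hb ?_)⟩
    · change a = C.d h₁ (a1 - a2)
      rw [map_sub, ha2, sub_zero, ← ha1]
    change f = - C.d (show n - 1 - 1 + 1 = n - 1 by omega) (-f1) +
      C.comp (show n - 1 + 0 = n - 1 by omega) b1 ε -
      C.comp (show 0 + (n - 1) = n - 1 by omega) ε (a1 - a2)
    rw [map_neg, neg_neg, map_sub]
    have h7 : f = C.comp (zero_add (n - 1)) ε a2 + C.d (by omega) f1 +
        C.comp (add_zero (n - 1)) b1 ε - C.comp (zero_add (n - 1)) ε a1 := by
      rw [← hf1]; abel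
    rw [h7]
    abel
  · intro l n m h₁ h₂ b hb
    obtain rfl : l = n - 1 := by omega
    change C.Hom Y Y n at b
    change C.d h₂ b = 0 at hb
    have h4 : C.d h₂ (C.comp (add_zero n) b ε) = 0 := by
      rw [d_comp_eps C X Y ε hε h₂ (add_zero n) (add_zero m) h₂ b, hb]
      simp
    obtain ⟨a, f, ha, hf⟩ := hq.2 (n - 1) n m h₁ h₂ _ h4
    refine ⟨((a, b, f) : C.Hom X X n × C.Hom Y Y n × C.Hom X Y (n - 1)), 0, ?_, ?_⟩
    · refine Prod.ext ha (Prod.ext hb ?_)
      change - C.d (show n - 1 + 1 = m - 1 by omega) f +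
        C.comp (show n + 0 = m - 1 by omega) b ε -
        C.comp (show 0 + n = m - 1 by omega) ε a = 0
      have h5 : ∀ p : ℤ, ∀ hp : p = n, C.comp (show n + 0 = p by omega) b ε =
          C.comp (show 0 + n = p by omega) ε a + C.d (show n - 1 + 1 = p by omega) f := by
        rintro p rfl
        exact hf
      rw [h5 (m - 1) (by omega)]
      abel
    · rw [map_zero, add_zero]
      rfl

lemma p1_qiso (hq : QPre C X Y ε) : (p1 C X Y ε hε).QIso := by
  constructor
  · intro l n m h₁ h₂ x a1 hx ha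
    obtain ⟨a, b, f⟩ := x
    obtain rfl : l = n - 1 := by omega
    obtain ⟨ha', hb, h3⟩ := closed_third C X Y ε hε h₂ hx
    change C.Hom X X (n - 1) at a1
    change a = C.d h₁ a1 at ha
    have h4 := h3 n rfl
    have h5 : C.comp (add_zero n) b ε =
        C.d h₁ (C.comp (zero_add (n - 1)) ε a1 + f) := by
      rw [map_add, d_eps_comp C X Y ε hε h₁ (zero_add (n - 1)) (zero_add n) h₁ a1, ← ha, h4]
      abel
    obtain ⟨b1, hb1⟩ := hq.1 (n - 1) n m h₁ h₂ b _ hb h5
    have h6 : C.d h₁ (f - C.comp (add_zero (n - 1)) b1 ε + C.comp (zero_add (n - 1)) ε a1) = 0 := by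
      rw [map_add, map_sub, d_comp_eps C X Y ε hε h₁ (add_zero (n - 1)) (add_zero n) h₁ b1,
        d_eps_comp C X Y ε hε h₁ (zero_add (n - 1)) (zero_add n) h₁ a1, ← ha, ← hb1, h4]
      abel
    obtain ⟨b2, f1, hb2, hf1⟩ := hq.2 (n - 1 - 1) (n - 1) n (by omega) h₁ _ h6
    refine ⟨((a1, b1 + b2, -f1) : C.Hom X X (n - 1) × C.Hom Y Y (n - 1) × C.Hom X Y (n - 1 - 1)),
      Prod.ext ha (Prod.ext ?_ ?_)⟩
    · change b = C.d h₁ (b1 + b2)
      rw [map_add, hb2, add_zero, ← hb1]
    change f = - C.d (show n - 1 - 1 + 1 = n - 1 by omega) (-f1) +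
      C.comp (show n - 1 + 0 = n - 1 by omega) (b1 + b2) ε -
      C.comp (show 0 + (n - 1) = n - 1 by omega) ε a1
    rw [map_neg, neg_neg, map_add, LinearMap.add_apply]
    have h7 : f = C.comp (add_zero (n - 1)) b2 ε + C.d (by omega) f1 +
        C.comp (add_zero (n - 1)) b1 ε - C.comp (zero_add (n - 1)) ε a1 := by
      rw [← hf1]; abel
    rw [h7]
    abel
  · intro l n m h₁ h₂ a ha
    obtain rfl : l = n - 1 := by omega
    change C.Hom X X n at a
    change C.d h₂ a = 0 at ha
    have h4 : C.d h₂ (C.comp (zero_add n) ε a) = 0 := by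
      rw [d_eps_comp C X Y ε hε h₂ (zero_add n) (zero_add m) h₂ a, ha]
      simp
    obtain ⟨b, f, hb, hf⟩ := hq.2 (n - 1) n m h₁ h₂ _ h4
    refine ⟨((a, b, -f) : C.Hom X X n × C.Hom Y Y n × C.Hom X Y (n - 1)), 0, ?_, ?_⟩
    · refine Prod.ext ha (Prod.ext hb ?_)
      change - C.d (show n - 1 + 1 = m - 1 by omega) (-f) +
        C.comp (show n + 0 = m - 1 by omega) b ε -
        C.comp (show 0 + n = m - 1 by omega) ε a = 0
      have h5 : ∀ p : ℤ, ∀ hp : p = n, C.comp (show 0 + n = p by omega) ε a =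
          C.comp (show n + 0 = p by omega) b ε + C.d (show n - 1 + 1 = p by omega) f := by
        rintro p rfl
        exact hf
      rw [h5 (m - 1) (by omega), map_neg]
      abel
    · rw [map_zero, add_zero]
      rfl

theorem endQ : EndQ.{u, v} := by
  intro k _ C X Y ε hε hpost hpre
  exact DGA.QEquiv.left (p1 C X Y ε hε) (p1_qiso C X Y ε hε hpre)
    (DGA.QEquiv.right (p2 C X Y ε hε) (p2_qiso C X Y ε hε hpost) (DGA.QEquiv.refl _))

end

end Pool.Agent.Helper82.RZ
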